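import Pool.Agent.H43.CM.A.Iface

/-!
# MP_7fe4b4_ag, job M-Inv2 : inversion and the Bruhat order

* `rk_inv`: for `i, k ≤ n`: `rk v⁻¹ i k + i = rk v k i + k`.
  Proof: `rk v⁻¹ i k = #{j : j < k, i ≤ v⁻¹ j}`; put `j = v a`: `= #{a : v a < k, i ≤ a}`.
  `#{a : v a < k} = k`; `#{a : v a < k, a < i} + #{a : v a < k, i ≤ a} = k`; `#{a < i : v a < k} + #{a < i : k ≤ v a} = i`,
  `#{a < i : k ≤ v a} = rk v k i`.  So `rk v⁻¹ i k = k - (i - rk v k i)`.
* for `k ≥ n`: `rk v i k = rk v i n`, and for `i ≥ n`: `rk v i k = 0`.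
* `ble_inv`: `ble w v → ble w⁻¹ v⁻¹`.
* `len_inv`: `len v⁻¹ = len v` (bijection of inversions `(a,b) ↦ (v b, v a)`).
* `cov_inv`.
* `SS_inv`: `z ∈ SS 1 v → z' ∈ SS 1 v⁻¹` if `lowMat z * lowMat z' = 1`: `lowMat z = b * permMat v * b'`, so
  `lowMat z' = b'⁻¹ * permMat v⁻¹ * b⁻¹`, and inverses of invertible upper triangular matrices are upper triangular.
-/

open MvPolynomial

noncomputable section

namespace CMT

variable {n : ℕ}

theorem Inv2_card_lt (k : ℕ) (hk : k ≤ n) :
    (Finset.univ.filter fun a : Fin n => a.val < k).card = k := by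
  have h : (Finset.univ.filter fun a : Fin n => a.val < k) =
      (Finset.univ : Finset (Fin k)).map (Fin.castLEEmb hk) := by
    ext a
    simp only [Finset.mem_filter, Finset.mem_univ, true_and, Finset.mem_map]
    constructor
    · intro ha
      exact ⟨⟨a.val, ha⟩, Fin.ext rfl⟩
    · rintro ⟨b, rfl⟩
      exact b.isLt
  rw [h, Finset.card_map, Finset.card_univ, Fintype.card_fin]

theorem Inv2_card_perm (v : Equiv.Perm (Fin n)) (P : Fin n → Prop) [DecidablePred P] :
    (Finset.univ.filter fun a : Fin n => P (v a)).card = (Finset.univ.filter P).card := by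
  refine Finset.card_bij (fun a _ => v a) ?_ ?_ ?_
  · intro a ha
    simpa using ha
  · intro a _ b _ h
    exact v.injective h
  · intro b hb
    exact ⟨v⁻¹ b, by simpa using hb, by simp⟩

theorem rk_inv (v : Equiv.Perm (Fin n)) (i k : ℕ) (hi : i ≤ n) (hk : k ≤ n) :
    rk v⁻¹ i k + i = rk v k i + k := by
  classical
  have h1 : rk v⁻¹ i k = (Finset.univ.filter fun a : Fin n => (v a).val < k ∧ i ≤ a.val).card := by
    unfold rk
    rw [← Inv2_card_perm v (fun j : Fin n => j.val < k ∧ i ≤ (v⁻¹ j).val)]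
    congr 1
    ext a
    simp
  have h2 : (Finset.univ.filter fun a : Fin n => (v a).val < k).card = k := by
    rw [Inv2_card_perm v (fun j : Fin n => j.val < k)]
    exact Inv2_card_lt k hk
  have h3 : (Finset.univ.filter fun a : Fin n => a.val < i ∧ (v a).val < k).card +
      (Finset.univ.filter fun a : Fin n => (v a).val < k ∧ i ≤ a.val).card = k := by
    conv_rhs => rw [← h2]
    rw [← Finset.card_filter_add_card_filter_not
      (s := Finset.univ.filter fun a : Fin n => (v a).val < k) (fun a : Fin n => a.val < i),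
      Finset.filter_filter, Finset.filter_filter]
    congr 2
    · ext a
      simp [and_comm]
    · ext a
      simp
  have h4 : (Finset.univ.filter fun a : Fin n => a.val < i ∧ (v a).val < k).card + rk v k i = i := by
    conv_rhs => rw [← Inv2_card_lt (n := n) i hi]
    unfold rk
    rw [← Finset.card_filter_add_card_filter_not
      (s := Finset.univ.filter fun a : Fin n => a.val < i) (fun a : Fin n => (v a).val < k),
      Finset.filter_filter, Finset.filter_filter]
    congr 2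
    ext a; simp
  omega

theorem Inv2_rk_big (v : Equiv.Perm (Fin n)) (i k : ℕ) (hi : n ≤ i) : rk v i k = 0 := by
  unfold rk
  rw [Finset.card_eq_zero, Finset.filter_eq_empty_iff]
  rintro j _ ⟨_, h⟩
  have := (v j).isLt
  omega

theorem ble_inv {v w : Equiv.Perm (Fin n)} (h : ble w v) : ble w⁻¹ v⁻¹ := by
  intro i k
  by_cases hi : n ≤ i
  · rw [Inv2_rk_big _ _ _ hi]
    exact Nat.zero_le _
  · by_cases hk : n ≤ k
    · rw [rk_of_ge _ _ _ hk, rk_of_ge _ _ _ hk, rk_top w⁻¹ v⁻¹]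
    · have h1 := rk_inv v i k (by omega) (by omega)
      have h2 := rk_inv w i k (by omega) (by omega)
      have h3 := h k i
      omega

theorem len_inv (v : Equiv.Perm (Fin n)) : len v⁻¹ = len v := by
  unfold len
  refine Finset.card_bij (fun p _ => (v⁻¹ p.2, v⁻¹ p.1)) ?_ ?_ ?_
  · rintro ⟨a, b⟩ h
    simp only [Finset.mem_filter, Finset.mem_univ, true_and] at h ⊢
    refine ⟨h.2, ?_⟩
    simpa using h.1
  · rintro ⟨a, b⟩ _ ⟨c, d⟩ _ h
    simp only [Prod.mk.injEq, EmbeddingLike.apply_eq_iff_eq] at h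
    exact Prod.ext h.2 h.1
  · rintro ⟨a, b⟩ h
    simp only [Finset.mem_filter, Finset.mem_univ, true_and] at h
    refine ⟨(v b, v a), ?_, by simp⟩
    simp only [Finset.mem_filter, Finset.mem_univ, true_and]
    exact ⟨h.2, by simpa using h.1⟩

theorem cov_inv {v w : Equiv.Perm (Fin n)} (h : cov w v) : cov w⁻¹ v⁻¹ :=
  ⟨ble_inv h.1, by rw [len_inv, len_inv]; exact h.2⟩

theorem SS_inv {v : Equiv.Perm (Fin n)} {z z' : Low n → ℂ} (h : z ∈ SS 1 v)
    (hz : lowMat z * lowMat z' = 1) : z' ∈ SS 1 v⁻¹ := by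
  obtain ⟨b, b', hb, hb', he⟩ := h
  rw [permMat_one, Matrix.one_mul] at he
  refine ⟨b'⁻¹, b⁻¹, hb'.inv, hb.inv, ?_⟩
  rw [permMat_one, Matrix.one_mul]
  have hub : IsUnit b.det := isUnit_iff_ne_zero.mpr hb.det_ne
  have hub' : IsUnit b'.det := isUnit_iff_ne_zero.mpr hb'.det_ne
  have h1 : lowMat z * (b'⁻¹ * permMat ℂ v⁻¹ * b⁻¹) = 1 := by
    rw [he]
    calc b * permMat ℂ v * b' * (b'⁻¹ * permMat ℂ v⁻¹ * b⁻¹)
        = b * (permMat ℂ v * (b' * b'⁻¹) * permMat ℂ v⁻¹) * b⁻¹ := by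
          simp only [Matrix.mul_assoc]
      _ = 1 := by
          rw [Matrix.mul_nonsing_inv _ hub', Matrix.mul_one, permMat_mul_inv, Matrix.mul_one,
            Matrix.mul_nonsing_inv _ hub]
  have h2 : lowMat z' * lowMat z = 1 := mul_eq_one_comm.mp hz
  calc lowMat z' = lowMat z' * (lowMat z * (b'⁻¹ * permMat ℂ v⁻¹ * b⁻¹)) := by
        rw [h1, Matrix.mul_one]
    _ = b'⁻¹ * permMat ℂ v⁻¹ * b⁻¹ := by
        rw [← Matrix.mul_assoc (lowMat z'), h2, Matrix.one_mul]

end CMT
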