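import Pool.Agent.H43.CM.M.Inv1
import Pool.Agent.H43.CM.M.Inv2
import Pool.Agent.H43.CM.E.E0
import Pool.Agent.H43.CM.H.Transp

/-!
# MP_7fe4b4_ag, job M-Inv3 : `t(v) = t(v⁻¹)` on the level of the boundary ideals

`c` from `exists_invE`.  For every `w`: `y ∈ SS 1 w⁻¹ ↔ ginv y ∈ SS 1 w` (`SS_inv` twice, `lowMat_mul_ginv`, and
`lowMat (ginv y) * lowMat y = 1` by `Matrix.mul_eq_one_comm`).  So `c.E f ∈ VI (SS 1 w⁻¹) ↔ f ∈ VI (SS 1 w)` (`c.aeval_E`, `c.g_surj`).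
`c.crEquiv` gives `e : CR (SS 1 v) ≃ₐ CR (SS 1 v⁻¹)` with `e (mk f) = mk (c.E f)` and `(orig ..).map e = orig ..`.
`a ∈ bd 1 v ↔ e a ∈ bd 1 v⁻¹`: `a = mk f`: `mk f ∈ bd 1 v ↔ ∀ w, cov w v → f ∈ VI (SS 1 w)` (`mk_mem_Pid`) and the covers of `v⁻¹` are the
`w⁻¹`, `cov w v` (`cov_inv`, twice).  `finrank_transport`.
-/

open MvPolynomial

noncomputable section

namespace CMT

variable {n : ℕ}

theorem finrank_bd_inv (v : Equiv.Perm (Fin n)) :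
    Module.finrank ℂ (bd 1 v⁻¹ ⧸ (orig (SS 1 v⁻¹) • (⊤ : Submodule (CR (SS 1 v⁻¹)) (bd 1 v⁻¹)))) =
    Module.finrank ℂ (bd 1 v ⧸ (orig (SS 1 v) • (⊤ : Submodule (CR (SS 1 v)) (bd 1 v)))) := by
  obtain ⟨c, hc⟩ := exists_invE (n := n)
  have hSS : ∀ (w : Equiv.Perm (Fin n)) (y : Low n → ℂ), y ∈ SS 1 w⁻¹ ↔ c.g y ∈ SS 1 w := by
    intro w y
    rw [hc]
    constructor
    · intro h
      have h1 := SS_inv h (lowMat_mul_ginv y)
      rwa [inv_inv] at h1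
    · intro h
      exact SS_inv h (mul_eq_one_comm.1 (lowMat_mul_ginv y))
  have hVI : ∀ (w : Equiv.Perm (Fin n)) (f : MvPolynomial (Low n) ℂ),
      f ∈ VI (SS 1 w) ↔ c.E f ∈ VI (SS 1 w⁻¹) := by
    intro w f
    rw [mem_vanishingIdeal_iff, mem_vanishingIdeal_iff]
    constructor
    · intro h1 y hy
      rw [c.aeval_E]
      exact h1 _ ((hSS w y).1 hy)
    · intro h1 z hz
      obtain ⟨y, rfl⟩ := c.g_surj z
      rw [← c.aeval_E]
      exact h1 _ ((hSS w y).2 hz)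
  obtain ⟨e, he, ho⟩ := c.crEquiv (SS 1 v) (SS 1 v⁻¹) (hSS v)
  have hn : ∀ a, a ∈ orig (SS 1 v) ↔ e a ∈ orig (SS 1 v⁻¹) := by
    intro a
    rw [← ho]
    constructor
    · intro h
      exact Ideal.mem_map_of_mem (e : CR (SS 1 v) →+* CR (SS 1 v⁻¹)) h
    · intro h
      have h1 : e a ∈ (orig (SS 1 v)).map (e : CR (SS 1 v) →+* CR (SS 1 v⁻¹)) ↔
          ∃ y ∈ orig (SS 1 v), e y = e a := Ideal.mem_map_of_equiv e (e a)
      obtain ⟨y, hy, hye⟩ := h1.1 h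
      rwa [← e.injective hye]
  have hbd : ∀ (u : Equiv.Perm (Fin n)) (f : MvPolynomial (Low n) ℂ),
      Ideal.Quotient.mk (VI (SS 1 u)) f ∈ bd 1 u ↔ ∀ w, cov w u → f ∈ VI (SS 1 w) := by
    intro u f
    unfold bd
    rw [Submodule.mem_iInf]
    constructor
    · intro h w hw
      exact (mk_mem_Pid hw.1 f).1 (h ⟨w, hw⟩)
    · rintro h ⟨w, hw⟩
      exact (mk_mem_Pid hw.1 f).2 (h w hw)
  have hN : ∀ a, a ∈ bd 1 v ↔ e a ∈ bd 1 v⁻¹ := by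
    intro a
    obtain ⟨f, rfl⟩ := Ideal.Quotient.mk_surjective a
    rw [he, hbd, hbd]
    constructor
    · intro h w hw
      have h1 := cov_inv hw
      rw [inv_inv] at h1
      have h2 := (hVI _ f).1 (h _ h1)
      rwa [inv_inv] at h2
    · intro h w hw
      exact (hVI w f).2 (h _ (cov_inv hw))
  exact (finrank_transport e (bd 1 v) (orig (SS 1 v)) (bd 1 v⁻¹) (orig (SS 1 v⁻¹)) hN hn).symm

end CMT
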