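import Pool.Agent.H43.CM.Ch.Iface

/-!
# MP_7fe4b4_ag, job M-Inv1 : the change of coordinates `z ↦ z⁻¹` of `U^-`

`ginv z` are the entries of the adjugate of `lowMat z`; as `det (lowMat z) = 1` (`Matrix.det_of_lowerTriangular`), the adjugate is the
inverse, which is again lower unitriangular (proof: the inverse of a lower triangular matrix is lower triangular,
`Matrix.BlockTriangular.inv`-lemmas (`Matrix.blockTriangular_inv_of_blockTriangular`, for invertible matrices over any commutative ring),
diagonal entries `1` by comparing the diagonal of `A * A⁻¹ = 1`).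
* `lowMat_ginv : lowMat (ginv z) = (lowMat z).adjugate`, `lowMat z * lowMat (ginv z) = 1`.
* `ginv (ginv z) = z`, `f (ginv z e) = ginv (f ∘ z) e` for ring homs (`RingHom.map_adjugate`).
* `exists_invE`: `E := aeval (ginv X)` is an algebra automorphism of `MvPolynomial (Low n) ℂ` (its own inverse: `E (ginv X e) =
  ginv (E X) e = ginv (ginv X) e = X e`), `g := ginv`, `aeval y (E f) = aeval (ginv y) f` (algebra maps, check on variables),
  `map_orig`: `ginv X e` has constant term `ginv 0 e = 0` (evaluate at `0`: `ginv 0 = 0`), so `E` maps `span (range X)` into itself, and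
  `E` is an involution.
-/

open MvPolynomial

noncomputable section

namespace CMT

variable {n : ℕ}

def ginv {R : Type*} [CommRing R] (z : Low n → R) : Low n → R :=
  fun e => (lowMat z).adjugate e.1.1 e.1.2

theorem minv1_inv {R : Type*} [CommRing R] (z : Low n → R) :
    (lowMat z)⁻¹ = (lowMat z).adjugate := by
  rw [Matrix.inv_def, det_lowMat]
  simp

theorem minv1_lower {R : Type*} [CommRing R] (z : Low n → R) (i j : Fin n) (h : i < j) :
    (lowMat z).adjugate i j = 0 := by
  have : Invertible (lowMat z) := Matrix.invertibleOfIsUnitDet (lowMat z) (by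
    rw [det_lowMat]; exact isUnit_one)
  have h1 : (lowMat z).BlockTriangular OrderDual.toDual := by
    intro a b hab
    exact lowMat_gt z (OrderDual.toDual_lt_toDual.1 hab)
  have h2 := Matrix.blockTriangular_inv_of_blockTriangular h1
  rw [minv1_inv] at h2
  exact h2 (OrderDual.toDual_lt_toDual.2 h)

theorem minv1_mul {R : Type*} [CommRing R] (z : Low n → R) :
    lowMat z * (lowMat z).adjugate = 1 := by
  rw [Matrix.mul_adjugate, det_lowMat, one_smul]

theorem minv1_diag {R : Type*} [CommRing R] (z : Low n → R) (i : Fin n) :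
    (lowMat z).adjugate i i = 1 := by
  have h1 := congrFun (congrFun (minv1_mul z) i) i
  rw [Matrix.mul_apply, Matrix.one_apply_eq] at h1
  rw [Finset.sum_eq_single i] at h1
  · rwa [lowMat_diag, one_mul] at h1
  · intro j _ hj
    rcases lt_or_gt_of_ne hj with h | h
    · rw [minv1_lower z j i h, mul_zero]
    · rw [lowMat_gt z h, zero_mul]
  · intro h
    exact absurd (Finset.mem_univ i) h

theorem lowMat_ginv {R : Type*} [CommRing R] (z : Low n → R) :
    lowMat (ginv z) = (lowMat z).adjugate :=
  (eq_lowMat (fun i j h => minv1_lower z i j h) (fun i => minv1_diag z i)).symm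

theorem lowMat_mul_ginv {R : Type*} [CommRing R] (z : Low n → R) :
    lowMat z * lowMat (ginv z) = 1 := by
  rw [lowMat_ginv, minv1_mul]

theorem ginv_ginv {R : Type*} [CommRing R] (z : Low n → R) : ginv (ginv z) = z := by
  apply lowMat_injective
  have h1 := lowMat_mul_ginv z
  have h2 := lowMat_mul_ginv (ginv z)
  calc lowMat (ginv (ginv z)) = (lowMat z * lowMat (ginv z)) * lowMat (ginv (ginv z)) := by
        rw [h1, one_mul]
    _ = lowMat z * (lowMat (ginv z) * lowMat (ginv (ginv z))) := by rw [mul_assoc]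
    _ = lowMat z := by rw [h2, mul_one]

theorem ginv_map {R S : Type*} [CommRing R] [CommRing S] (f : R →+* S) (z : Low n → R)
    (e : Low n) : f (ginv z e) = ginv (fun e => f (z e)) e := by
  unfold ginv
  rw [← lowMat_map f z]
  have h := RingHom.map_adjugate f (lowMat z)
  have h1 := congrFun (congrFun h e.1.1) e.1.2
  simpa [RingHom.mapMatrix_apply] using h1

theorem ginv_zero {R : Type*} [CommRing R] (e : Low n) : ginv (fun _ : Low n => (0 : R)) e = 0 := by
  unfold ginv
  rw [lowMat_zero, Matrix.adjugate_one]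
  exact Matrix.one_apply_ne (ne_of_gt e.2)

theorem minv1_comp :
    (aeval (ginv (fun e : Low n => (X e : MvPolynomial (Low n) ℂ)))).comp
      (aeval (ginv (fun e : Low n => (X e : MvPolynomial (Low n) ℂ)))) =
      AlgHom.id ℂ (MvPolynomial (Low n) ℂ) := by
  apply MvPolynomial.algHom_ext
  intro e
  rw [AlgHom.comp_apply, aeval_X]
  have h := ginv_map ((aeval (ginv (fun e : Low n => (X e : MvPolynomial (Low n) ℂ))) :
    MvPolynomial (Low n) ℂ →ₐ[ℂ] MvPolynomial (Low n) ℂ) : MvPolynomial (Low n) ℂ →+* MvPolynomial (Low n) ℂ)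
    (fun e : Low n => (X e : MvPolynomial (Low n) ℂ)) e
  simp only [RingHom.coe_coe, aeval_X] at h
  rw [h]
  exact congrFun (ginv_ginv _) e

theorem minv1_le :
    (Ideal.span (Set.range (X : Low n → MvPolynomial (Low n) ℂ))).map
      ((aeval (ginv (fun e : Low n => (X e : MvPolynomial (Low n) ℂ))) :
        MvPolynomial (Low n) ℂ →ₐ[ℂ] MvPolynomial (Low n) ℂ) : MvPolynomial (Low n) ℂ →+* MvPolynomial (Low n) ℂ) ≤
      Ideal.span (Set.range (X : Low n → MvPolynomial (Low n) ℂ)) := by
  rw [Ideal.map_le_iff_le_comap, Ideal.span_le]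
  rintro _ ⟨e, rfl⟩
  change (aeval (ginv (fun e : Low n => (X e : MvPolynomial (Low n) ℂ)))) (X e) ∈
    Ideal.span (Set.range (X : Low n → MvPolynomial (Low n) ℂ))
  rw [aeval_X, ← Ideal.Quotient.eq_zero_iff_mem, ginv_map]
  have h : (fun e : Low n => Ideal.Quotient.mk
      (Ideal.span (Set.range (X : Low n → MvPolynomial (Low n) ℂ))) (X e)) = fun _ => 0 := by
    funext e
    rw [Ideal.Quotient.eq_zero_iff_mem]
    exact Ideal.subset_span ⟨e, rfl⟩
  rw [h]
  exact ginv_zero e

theorem exists_invE : ∃ c : CoordChange (Low n) (Low n), ∀ y, c.g y = ginv y := by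
  refine ⟨⟨AlgEquiv.ofAlgHom (aeval (ginv (fun e : Low n => (X e : MvPolynomial (Low n) ℂ))))
    (aeval (ginv (fun e : Low n => (X e : MvPolynomial (Low n) ℂ)))) minv1_comp minv1_comp,
    ginv, fun z => ⟨ginv z, ginv_ginv z⟩, ?_, ?_⟩, fun y => rfl⟩
  · intro y f
    have h : (aeval y : MvPolynomial (Low n) ℂ →ₐ[ℂ] ℂ).comp
        (aeval (ginv (fun e : Low n => (X e : MvPolynomial (Low n) ℂ)))) = aeval (ginv y) := by
      apply MvPolynomial.algHom_ext
      intro e
      rw [AlgHom.comp_apply, aeval_X, aeval_X]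
      have h := ginv_map ((aeval y : MvPolynomial (Low n) ℂ →ₐ[ℂ] ℂ) :
        MvPolynomial (Low n) ℂ →+* ℂ) (fun e : Low n => (X e : MvPolynomial (Low n) ℂ)) e
      simp only [RingHom.coe_coe, aeval_X] at h
      exact h
    exact DFunLike.congr_fun h f
  · have h1 := minv1_le (n := n)
    apply le_antisymm h1
    have h2 := Ideal.map_mono (f := ((aeval (ginv (fun e : Low n => (X e : MvPolynomial (Low n) ℂ))) :
        MvPolynomial (Low n) ℂ →ₐ[ℂ] MvPolynomial (Low n) ℂ) : MvPolynomial (Low n) ℂ →+* MvPolynomial (Low n) ℂ)) h1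
    rw [Ideal.map_map] at h2
    have h3 : ((aeval (ginv (fun e : Low n => (X e : MvPolynomial (Low n) ℂ))) :
        MvPolynomial (Low n) ℂ →ₐ[ℂ] MvPolynomial (Low n) ℂ) : MvPolynomial (Low n) ℂ →+* MvPolynomial (Low n) ℂ).comp
        ((aeval (ginv (fun e : Low n => (X e : MvPolynomial (Low n) ℂ))) :
        MvPolynomial (Low n) ℂ →ₐ[ℂ] MvPolynomial (Low n) ℂ) : MvPolynomial (Low n) ℂ →+* MvPolynomial (Low n) ℂ) =
        RingHom.id _ := by
      apply RingHom.ext
      intro f
      exact DFunLike.congr_fun (minv1_comp (n := n)) f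
    rw [h3, Ideal.map_id] at h2
    exact h2

end CMT
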