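import Pool.Agent.H43.CM.A.Iface

/-!
# MP_7fe4b4_ag, job M-Orig : the ideal of the origin of `R_v` is prime (the point `e_id` lies on `X_v`)

`SS 1 v` is nonempty (`SS_nonempty_of_ble (ble_one v)`), so `VI (SS 1 v) ≤ span (range X)` (`VI_SS_le_orig`).  The ideal
`m0 = span (range X)` of `MvPolynomial (Low n) ℂ` is prime (it is the kernel of evaluation at `0`; e.g.
`MvPolynomial.ker_constantCoeff`/`idealOfVars`, or the vanishing ideal of the point `0`), and `orig (SS 1 v)` is its image under
the quotient map (`Ideal.map_span`, `Set.range_comp`), whose kernel is contained in `m0`: `Ideal.map_isPrime_of_surjective`.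
-/

open MvPolynomial

noncomputable section

namespace CMT

variable {n : ℕ}

private theorem Orig_m0 {σ : Type} :
    Ideal.span (Set.range (X : σ → MvPolynomial σ ℂ)) =
      RingHom.ker (constantCoeff : MvPolynomial σ ℂ →+* ℂ) := by
  ext f
  rw [← Set.image_univ, mem_ideal_span_X_image, RingHom.mem_ker]
  constructor
  · intro h
    by_contra hc
    obtain ⟨i, -, hi⟩ := h 0 (by rwa [mem_support_iff])
    exact hi rfl
  · intro h m hm
    by_contra hc
    push Not at hc
    have : m = 0 := Finsupp.ext fun i => hc i (Set.mem_univ i)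
    rw [this, mem_support_iff] at hm
    exact hm h

theorem orig_isPrime (v : Equiv.Perm (Fin n)) : (orig (SS 1 v)).IsPrime := by
  have h1 : VI (SS 1 v) ≤ Ideal.span (Set.range (X : Low n → MvPolynomial (Low n) ℂ)) :=
    VI_SS_le_orig (SS_nonempty_of_ble (ble_one v))
  have h2 : (Ideal.span (Set.range (X : Low n → MvPolynomial (Low n) ℂ))).IsPrime := by
    rw [Orig_m0]
    exact RingHom.ker_isPrime _
  have h3 : orig (SS 1 v) = (Ideal.span (Set.range (X : Low n → MvPolynomial (Low n) ℂ))).map
      (Ideal.Quotient.mk (VI (SS 1 v))) := by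
    rw [Ideal.map_span, ← Set.range_comp]
    rfl
  rw [h3]
  refine Ideal.map_isPrime_of_surjective Ideal.Quotient.mk_surjective ?_
  rw [Ideal.mk_ker]
  exact h1

end CMT
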